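import Mathlib
import Pool.Agent.Y464.AG.Haar2

set_option autoImplicit false

/-!
# Algebras of infinite homological dimension

The global dimension and the bidimension are infinite for every unital C*-algebra `A` which has a tracial state `τ` and
a unitary `u` with `τ(u^n) = 0` for all `n ≥ 1`, or a central unitary whose spectrum is the whole circle; for the
algebras `C(X, B)`, where the compact space `X` has a continuous map onto `[0,1]` and `B ≠ 0` is any unital C*-algebra;
for every commutative unital Banach algebra `A` with an invertible element `w` such that the powers `w^n`, `n ∈ ℤ`, are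
bounded and the spectrum of `w` is the whole circle; and in particular for `C[0,1]`.
-/

namespace Pool.Agent.Results.MP_1bca0d_an.HaarUnitaries

open Pool.Agent.Helper832.GS Pool.Agent.H724R3.N

/-- The global dimension of `A`, the bidimension of `A` (the homological dimension of the bimodule `A₊`), and the
homological dimension of the bimodule `A` are infinite. -/
def InfiniteDims (A : Type) [NonUnitalNormedRing A] [NormedSpace ℂ A] [IsScalarTower ℂ A A]
    [SMulCommClass ℂ A A] [CompleteSpace A] : Prop := dg A = ⊤ ∧ db A = ⊤ ∧ (regB A).dh = ⊤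

/-- (1) Unital C*-algebras with a tracial state `τ` and a unitary `u` with `τ(u^n) = 0` for all `n ≥ 1`. -/
def TracialStates : Prop :=
  ∀ (A : Type) [CStarAlgebra A] [Nontrivial A] (τ : A →L[ℂ] ℂ) (u : unitary A), ‖τ‖ ≤ 1 → τ 1 = 1 →
    (∀ x y, τ (x * y) = τ (y * x)) → (∀ n : ℕ, 0 < n → τ ((u : A) ^ n) = 0) → InfiniteDims A

/-- (2) Unital C*-algebras with a central unitary whose spectrum is the unit circle. -/
def CentralUnitaries : Prop :=
  ∀ (A : Type) [CStarAlgebra A] [Nontrivial A] (u : unitary A), (∀ x : A, (u : A) * x = x * u) →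
    (∀ z : ℂ, ‖z‖ = 1 → z ∈ spectrum ℂ (u : A)) → InfiniteDims A

/-- (3) Algebras of continuous functions with values in a unital C*-algebra `B ≠ 0`, on a compact space with a
continuous map onto `[0,1]`. -/
def FunctionAlgebras : Prop :=
  ∀ (X : Type) [TopologicalSpace X] [CompactSpace X] [T2Space X] (f : C(X, unitInterval)),
    Function.Surjective f → ∀ (B : Type) [CStarAlgebra B] [Nontrivial B], InfiniteDims C(X, B)

/-- (4) Commutative unital Banach algebras with an invertible element `w` such that the powers `w^n`, `n ∈ ℤ`, are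
bounded and the spectrum of `w` contains the unit circle. -/
def CommutativeAlgebras : Prop :=
  ∀ (A : Type) [NormedCommRing A] [NormedAlgebra ℂ A] [CompleteSpace A] [NormOneClass A] (w : Aˣ),
    (∃ C : ℝ, ∀ n : ℤ, ‖((w ^ n : Aˣ) : A)‖ ≤ C) → (∀ z : ℂ, ‖z‖ = 1 → z ∈ spectrum ℂ (w : A)) → InfiniteDims A

theorem result : TracialStates ∧ CentralUnitaries ∧ FunctionAlgebras ∧ CommutativeAlgebras ∧
    InfiniteDims C(unitInterval, ℂ) := by
  refine ⟨?_, ?_, ?_, ?_, ?_⟩
  · intro A _ _ τ u h1 h2 h3 h4
    exact Pool.Agent.Y464.AG.tracial A τ h1 h2 h3 u h4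
  · intro A _ _ u h1 h2
    exact Pool.Agent.Y464.AG.central A u h1 h2
  · intro X _ _ _ f hf B _ _
    exact Pool.Agent.Y464.AG.functions X f hf B
  · intro A _ _ _ _ w h1 h2
    exact Pool.Agent.Y464.AG.commutative A w h1 h2
  · exact Pool.Agent.Y464.AG.functions unitInterval (ContinuousMap.id _) Function.surjective_id ℂ

end Pool.Agent.Results.MP_1bca0d_an.HaarUnitaries
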